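import Pool.Agent.Lib.MP_6bc78b_nt.MS.QZ.Iface2

/-! Project MS, Part QZ, modules FIC and FIN (helper6): the final statement. -/

set_option autoImplicit false

open Complex Filter Topology MeasureTheory ArithmeticFunction

namespace Pool.Agent.Lib.MP_6bc78b_nt.MS.QZ.H6

open Pool.Agent.Lib.MP_6bc78b_nt Pool.Agent.Lib.MP_6bc78b_nt.MS
  Pool.Agent.Lib.MP_6bc78b_nt.MS.P1 Pool.Agent.Lib.MP_6bc78b_nt.MS.QZ

lemma DD_pos {T : ℝ} (h : 1 < T) : 0 < DD T := by
  unfold DD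
  exact div_pos (by linarith) (Real.rpow_pos_of_pos (Real.log_pos h) _)

lemma wt_pos (T γ : ℝ) : 0 < wt T γ := Real.exp_pos _

/-- `A D(T) ≤ κ T` for large `T`. -/
lemma dd_small (A κ : ℝ) (hκ : 0 < κ) : ∀ᶠ T : ℝ in atTop, A * DD T ≤ κ * T := by
  have h1 : Tendsto (fun T : ℝ => Real.log T ^ (2 / 3 : ℝ)) atTop atTop :=
    (tendsto_rpow_atTop (by norm_num)).comp Real.tendsto_log_atTop
  have h2 : Tendsto (fun T : ℝ => A / Real.log T ^ (2 / 3 : ℝ)) atTop (𝓝 0) :=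
    tendsto_const_nhds.div_atTop h1
  filter_upwards [h2.eventually_le_const hκ, eventually_gt_atTop 1] with T hT hT1
  have e : A * DD T = (A / Real.log T ^ (2 / 3 : ℝ)) * T := by
    unfold DD; ring
  rw [e]
  exact mul_le_mul_of_nonneg_right hT (by linarith)

/-- The exchange of sums for the lower bound. -/
lemma lower_count {th c1 c2 A η h X κ Y B : ℝ} {H : ℝ → Set ℝ}
    (hH : ∀ T, X ≤ T → H T ⊆ Gset th c1 c2 A η T) (hzf : ∀ T, (zset T).Finite) (hh : 0 < h)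
    (hκ : κ ≤ 1 / 2) (hX : 3 ≤ X) (g1 : ∀ i, X ≤ grd X h i)
    (g2 : ∀ Y : ℝ, {i : ℕ | grd X h i ≤ Y}.Finite)
    (g3 : ∀ γ : ℝ, ∑ᶠ i ∈ {i : ℕ | |γ - grd X h i| ≤ A * DD (grd X h i)},
      h * wt (grd X h i) γ ≤ B)
    (hD : ∀ T, X ≤ T → A * DD T ≤ κ * T)
    (Z : Set ℝ) (hZ : Z.Finite)
    (hsub : ∀ i, grd X h i ≤ Y → H (grd X h i) ⊆ Z) :
    ∑ i ∈ (g2 Y).toFinset, h * ∑ᶠ γ ∈ H (grd X h i), wt (grd X h i) γ ≤
      B * (Z.ncard : ℝ) := by
  classical
  have hGf : ∀ i, (H (grd X h i)).Finite := fun i =>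
    (hzf (grd X h i)).subset (fun γ hγ => (hH _ (g1 i) hγ).1)
  have e1 : ∀ i ∈ (g2 Y).toFinset,
      h * ∑ᶠ γ ∈ H (grd X h i), wt (grd X h i) γ =
      ∑ γ ∈ hZ.toFinset, if γ ∈ H (grd X h i) then h * wt (grd X h i) γ
        else 0 := by
    intro i hi
    have hi' : grd X h i ≤ Y := by simpa using hi
    rw [finsum_mem_eq_finite_toFinset_sum _ (hGf _), Finset.mul_sum, ← Finset.sum_filter]
    apply Finset.sum_congr _ (fun _ _ => rfl)
    ext γ
    simp only [Set.Finite.mem_toFinset, Finset.mem_filter]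
    constructor
    · intro hγ
      exact ⟨hsub i hi' hγ, hγ⟩
    · exact fun hγ => hγ.2
  rw [Finset.sum_congr rfl e1, Finset.sum_comm]
  have e2 : ∀ γ ∈ hZ.toFinset,
      ∑ i ∈ (g2 Y).toFinset, (if γ ∈ H (grd X h i) then h * wt (grd X h i) γ
        else 0) ≤ B := by
    intro γ _
    refine le_trans ?_ (g3 γ)
    have hJ : {i : ℕ | |γ - grd X h i| ≤ A * DD (grd X h i)}.Finite := by
      apply (g2 (2 * |γ|)).subset
      intro i hi
      simp only [Set.mem_ofPred_eq] at hi ⊢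
      have h1 := hD _ (g1 i)
      have h2 := g1 i
      have h3 : grd X h i - γ ≤ κ * grd X h i := by
        have := (abs_le.1 hi).1
        linarith
      have h4 : κ * grd X h i ≤ 1 / 2 * grd X h i :=
        mul_le_mul_of_nonneg_right hκ (by linarith)
      have h5 := le_abs_self γ
      linarith
    rw [finsum_mem_eq_finite_toFinset_sum _ hJ, ← Finset.sum_filter]
    apply Finset.sum_le_sum_of_subset_of_nonneg
    · intro i hi
      simp only [Finset.mem_filter, Set.Finite.mem_toFinset, Set.mem_ofPred_eq] at hi ⊢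
      exact (hH _ (g1 i) hi.2).2.1
    · intro i _ _
      exact mul_nonneg hh.le (wt_pos _ _).le
  refine (Finset.sum_le_sum e2).trans ?_
  rw [Finset.sum_const, nsmul_eq_mul, Set.ncard_eq_toFinset_card Z hZ, mul_comm]

/-- The covering for the upper bound. -/
lemma upper_sum {th c1 c2 A η h X κ T : ℝ} {H : ℝ → Set ℝ}
    (hH : ∀ T, X ≤ T → H T ⊆ Gset th c1 c2 A η T) (hzf : ∀ T, (zset T).Finite)
    (hκ : κ ≤ 1 / 2) (hX : 3 ≤ X) (g1 : ∀ i, X ≤ grd X h i)
    (g2 : ∀ Y : ℝ, {i : ℕ | grd X h i ≤ Y}.Finite)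
    (hD : ∀ T, X ≤ T → A * DD T ≤ κ * T) (f : ℝ → ℝ) (hf : ∀ γ, 0 ≤ f γ)
    (hfin : {γ : ℝ | γ ∈ {γ | ∃ i, γ ∈ H (grd X h i)} ∧ γ ≤ T}.Finite) :
    ∑ᶠ γ ∈ {γ : ℝ | γ ∈ {γ | ∃ i, γ ∈ H (grd X h i)} ∧ γ ≤ T}, f γ ≤
      ∑ i ∈ (g2 (2 * T)).toFinset, ∑ᶠ γ ∈ H (grd X h i), f γ := by
  classical
  have hGf : ∀ i, (H (grd X h i)).Finite := fun i =>
    (hzf (grd X h i)).subset (fun γ hγ => (hH _ (g1 i) hγ).1)
  rw [finsum_mem_eq_finite_toFinset_sum _ hfin]
  have e1 : ∀ γ ∈ hfin.toFinset, f γ ≤ ∑ i ∈ (g2 (2 * T)).toFinset,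
      (if γ ∈ H (grd X h i) then f γ else 0) := by
    intro γ hγ
    simp only [Set.Finite.mem_toFinset, Set.mem_ofPred_eq] at hγ
    obtain ⟨⟨i, hi⟩, hT⟩ := hγ
    have hi2 : i ∈ (g2 (2 * T)).toFinset := by
      simp only [Set.Finite.mem_toFinset, Set.mem_ofPred_eq]
      have h1 := hD _ (g1 i)
      have h2 := g1 i
      have h3 : grd X h i - γ ≤ κ * grd X h i := by
        have := (abs_le.1 (hH _ h2 hi).2.1).1
        linarith
      have h4 : κ * grd X h i ≤ 1 / 2 * grd X h i :=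
        mul_le_mul_of_nonneg_right hκ (by linarith)
      linarith
    have h5 : f γ = if γ ∈ H (grd X h i) then f γ else 0 := by
      rw [if_pos hi]
    conv_lhs => rw [h5]
    apply Finset.single_le_sum (f := fun i => if γ ∈ H (grd X h i) then f γ
      else 0) _ hi2
    intro j _
    split_ifs
    · exact hf γ
    · exact le_rfl
  refine (Finset.sum_le_sum e1).trans ?_
  rw [Finset.sum_comm]
  apply Finset.sum_le_sum
  intro i _
  rw [finsum_mem_eq_finite_toFinset_sum _ (hGf _), ← Finset.sum_filter]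
  apply Finset.sum_le_sum_of_subset_of_nonneg
  · intro γ hγ
    simp only [Finset.mem_filter, Set.Finite.mem_toFinset] at hγ ⊢
    exact hγ.2
  · intro γ _ _
    exact hf γ

/-- The sum over one window. -/
lemma window {th c1 c2 A η C T k : ℝ} {S : Set ℝ} (hS : S ⊆ Gset th c1 c2 A η T)
    (hzf : ∀ T, (zset T).Finite)
    (hmz : ∀ γ : ℝ, riemannZeta (1 / 2 + γ * I) = 0 → 1 ≤ mz γ)
    (hZ0 : ∀ γ : ℝ, riemannZeta (1 / 2 + γ * I) = 0 → hardyZ γ = 0)
    (h6 : DhzStatement) (hT : 3 ≤ T) (hη : 0 < η) (hη1 : η ≤ 1)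
    (hk : 0 < k) (hk1 : k ≤ 1)
    (hM : ∑ᶠ γ ∈ zset T, (mz γ : ℝ) * wt T γ * ‖MM th c1 c2 T (1 / 2 + γ * I)‖ ^ (2 * k) ≤
      C / k * (cG T * Real.log T) * Real.log T ^ (k ^ 2)) :
    ∑ᶠ γ ∈ S, |deriv hardyZ γ| ^ (-(2 * k)) ≤
      (η ^ 2)⁻¹ * Real.exp (A ^ 2) * (C / k) * cG T * Real.log T ^ ((1 - k) ^ 2) := by
  classical
  have hGf : S.Finite := (hzf T).subset (fun γ h => (hS h).1)
  have hL : 0 < Real.log T := Real.log_pos (by linarith)
  have hDT : 0 < DD T := DD_pos (by linarith)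
  rw [finsum_mem_eq_finite_toFinset_sum _ hGf]
  rw [finsum_mem_eq_finite_toFinset_sum _ (hzf T)] at hM
  have hpt : ∀ γ ∈ hGf.toFinset, |deriv hardyZ γ| ^ (-(2 * k)) ≤
      ((η ^ 2)⁻¹ * Real.exp (A ^ 2) * Real.log T ^ (-(2 * k))) *
        ((mz γ : ℝ) * wt T γ * ‖MM th c1 c2 T (1 / 2 + γ * I)‖ ^ (2 * k)) := by
    intro γ hγ
    simp only [Set.Finite.mem_toFinset] at hγ
    obtain ⟨hγ1, hγ2, hγ3⟩ := hS hγ
    have hz : riemannZeta (1 / 2 + γ * I) = 0 := hγ1.2.2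
    rw [h6 γ (hZ0 γ hz)]
    set d := ‖deriv riemannZeta (1 / 2 + γ * I)‖ with hd
    set m := ‖MM th c1 c2 T (1 / 2 + γ * I)‖ with hm
    have hv : η * Real.log T ≤ d * m := by
      have : ‖vv th c1 c2 T (1 / 2 + γ * I)‖ = d * m := by
        unfold vv; rw [norm_mul]
      rw [← this]; exact hγ3
    have hpos : 0 < d * m := lt_of_lt_of_le (mul_pos hη hL) hv
    have hd0 : 0 < d := by
      by_contra hc
      have h0 : d = 0 := le_antisymm (not_lt.1 hc) (norm_nonneg _)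
      rw [h0, zero_mul] at hpos
      exact lt_irrefl _ hpos
    have hm0 : 0 < m := by
      by_contra hc
      have h0 : m = 0 := le_antisymm (not_lt.1 hc) (norm_nonneg _)
      rw [h0, mul_zero] at hpos
      exact lt_irrefl _ hpos
    -- d^(-2k) ≤ (η log T)^(-2k) m^(2k)
    have h1 : d ^ (-(2 * k)) ≤ (η * Real.log T) ^ (-(2 * k)) * m ^ (2 * k) := by
      have h2 : (d * m) ^ (-(2 * k)) ≤ (η * Real.log T) ^ (-(2 * k)) :=
        Real.rpow_le_rpow_of_nonpos (mul_pos hη hL) hv (by linarith)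
      rw [Real.mul_rpow hd0.le hm0.le] at h2
      have h3 : m ^ (-(2 * k)) * m ^ (2 * k) = 1 := by
        rw [← Real.rpow_add hm0]; simp
      calc d ^ (-(2 * k)) = d ^ (-(2 * k)) * m ^ (-(2 * k)) * m ^ (2 * k) := by
            rw [mul_assoc, h3, mul_one]
        _ ≤ _ := mul_le_mul_of_nonneg_right h2 (Real.rpow_nonneg hm0.le _)
    have h4 : (η * Real.log T) ^ (-(2 * k)) ≤ (η ^ 2)⁻¹ * Real.log T ^ (-(2 * k)) := by
      rw [Real.mul_rpow hη.le hL.le]
      apply mul_le_mul_of_nonneg_right _ (Real.rpow_nonneg hL.le _)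
      have : (η ^ 2)⁻¹ = η ^ (-(2 : ℝ)) := by
        rw [Real.rpow_neg hη.le]; norm_num
      rw [this]
      exact Real.rpow_le_rpow_of_exponent_ge hη hη1 (by linarith)
    have h5 : 1 ≤ Real.exp (A ^ 2) * wt T γ := by
      unfold wt
      rw [← Real.exp_add]
      apply Real.one_le_exp
      have h7 : (γ - T) ^ 2 / DD T ^ 2 ≤ A ^ 2 := by
        rw [div_le_iff₀ (by positivity), ← mul_pow]
        exact sq_le_sq' (by linarith [(abs_le.1 hγ2).1]) (abs_le.1 hγ2).2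
      rw [neg_div]; linarith
    have h8 : (1 : ℝ) ≤ mz γ := by exact_mod_cast hmz γ hz
    have h9 : 0 ≤ m ^ (2 * k) := Real.rpow_nonneg hm0.le _
    have h10 : 0 ≤ (η ^ 2)⁻¹ * Real.log T ^ (-(2 * k)) :=
      mul_nonneg (by positivity) (Real.rpow_nonneg hL.le _)
    calc d ^ (-(2 * k)) ≤ (η * Real.log T) ^ (-(2 * k)) * m ^ (2 * k) := h1
      _ ≤ (η ^ 2)⁻¹ * Real.log T ^ (-(2 * k)) * m ^ (2 * k) :=
        mul_le_mul_of_nonneg_right h4 h9
      _ = ((η ^ 2)⁻¹ * Real.log T ^ (-(2 * k))) * m ^ (2 * k) * (1 * 1) := by ring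
      _ ≤ ((η ^ 2)⁻¹ * Real.log T ^ (-(2 * k))) * m ^ (2 * k) *
            ((mz γ : ℝ) * (Real.exp (A ^ 2) * wt T γ)) := by
          apply mul_le_mul_of_nonneg_left _ (mul_nonneg h10 h9)
          exact mul_le_mul h8 h5 zero_le_one (by linarith)
      _ = _ := by ring
  refine (Finset.sum_le_sum hpt).trans ?_
  rw [← Finset.mul_sum]
  have hc0 : 0 ≤ (η ^ 2)⁻¹ * Real.exp (A ^ 2) * Real.log T ^ (-(2 * k)) :=
    mul_nonneg (by positivity) (Real.rpow_nonneg hL.le _)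
  have h11 : ∑ γ ∈ hGf.toFinset,
      ((mz γ : ℝ) * wt T γ * ‖MM th c1 c2 T (1 / 2 + γ * I)‖ ^ (2 * k)) ≤
      ∑ γ ∈ (hzf T).toFinset,
      ((mz γ : ℝ) * wt T γ * ‖MM th c1 c2 T (1 / 2 + γ * I)‖ ^ (2 * k)) := by
    apply Finset.sum_le_sum_of_subset_of_nonneg
    · intro γ hγ
      simp only [Set.Finite.mem_toFinset] at hγ ⊢
      exact (hS hγ).1
    · intro γ _ _
      exact mul_nonneg (mul_nonneg (Nat.cast_nonneg _) (wt_pos _ _).le)
        (Real.rpow_nonneg (norm_nonneg _) _)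
  refine (mul_le_mul_of_nonneg_left (h11.trans hM) hc0).trans (le_of_eq ?_)
  have h12 : Real.log T ^ (-(2 * k)) * Real.log T * Real.log T ^ (k ^ 2) =
      Real.log T ^ ((1 - k) ^ 2) := by
    conv_lhs => rw [← Real.rpow_one (Real.log T), ← Real.rpow_mul hL.le,
      ← Real.rpow_mul hL.le]
    rw [← Real.rpow_add hL, ← Real.rpow_add hL]
    congr 1
    ring
  rw [← h12]
  ring

/-- `T log T` against `Y log Y`, `Y = T/(1+t)`. -/
lemma ylogy (t : ℝ) (ht : 0 < t) : ∀ᶠ T : ℝ in atTop,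
    (1 - t) * (T * Real.log T) ≤ (1 + t) * (T / (1 + t) * Real.log (T / (1 + t))) := by
  filter_upwards [Real.tendsto_log_atTop.eventually_ge_atTop (Real.log (1 + t) / t),
    eventually_gt_atTop 1] with T hT hT1
  rw [Real.log_div (by linarith) (by linarith)]
  have h1 : Real.log (1 + t) ≤ t * Real.log T := by
    rw [div_le_iff₀ ht] at hT; linarith
  have h2 : (1 + t) * (T / (1 + t) * (Real.log T - Real.log (1 + t))) =
      T * (Real.log T - Real.log (1 + t)) := by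
    field_simp
  rw [h2]
  nlinarith

/-- the final choice of constants -/
lemma consts {q ε t : ℝ} (hq : 0 < q) (ht0 : 0 < t) (ht1 : t ≤ 1 / 64) (ht2 : 8 * q * t ≤ ε)
    (ha : 0 < q - ε) :
    (q - ε) * ((1 + t) ^ 2 * (1 + 3 * t)) ≤ q * (1 - t) ^ 2 := by
  have h1 : (1 + t) ^ 2 * (1 + 3 * t) ≤ 1 + 6 * t := by nlinarith [mul_pos ht0 ht0]
  have h2 : 1 - 2 * t ≤ (1 - t) ^ 2 := by nlinarith
  have h3 : (q - ε) * (1 + 6 * t) ≤ q * (1 - 2 * t) := by nlinarith
  calc (q - ε) * ((1 + t) ^ 2 * (1 + 3 * t)) ≤ (q - ε) * (1 + 6 * t) :=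
        mul_le_mul_of_nonneg_left h1 ha.le
    _ ≤ q * (1 - 2 * t) := h3
    _ ≤ _ := mul_le_mul_of_nonneg_left h2 hq.le

lemma NZ_nonneg (T : ℝ) : 0 ≤ NZ T := by
  unfold NZ
  exact finsum_nonneg fun γ => finsum_nonneg fun _ => Nat.cast_nonneg _

/-- the arithmetic at the end of the lower bound -/
lemma endgame {q ε t W V N Z : ℝ} (hq : 0 < q) (ht0 : 0 < t) (ht1 : t ≤ 1 / 64)
    (ht2 : 8 * q * t ≤ ε) (ha : 0 < q - ε) (hW0 : 0 < W) (hN0 : 0 ≤ N)
    (e3 : (1 - t) * W ≤ (1 + t) * V)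
    (k3 : q / (2 * Real.sqrt Real.pi) * ((1 - t) * V) ≤ (Real.sqrt Real.pi + 3 * t) * N)
    (e1 : Z ≤ (1 + t) * (W / (2 * Real.pi))) : (q - ε) * Z ≤ N := by
  have hpi : 0 < Real.sqrt Real.pi := Real.sqrt_pos.2 Real.pi_pos
  have hpi0 := Real.pi_pos
  have hpi1 : 1 ≤ Real.sqrt Real.pi := by
    rw [Real.one_le_sqrt]; linarith [Real.pi_gt_three]
  have k4 := consts hq ht0 ht1 ht2 ha
  have k5 : q * ((1 - t) * V) ≤ 2 * Real.sqrt Real.pi * ((Real.sqrt Real.pi + 3 * t) * N) := by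
    have : q / (2 * Real.sqrt Real.pi) * ((1 - t) * V) =
        (q * ((1 - t) * V)) / (2 * Real.sqrt Real.pi) := by ring
    rw [this, div_le_iff₀ (by positivity)] at k3
    linarith
  have k6 : 2 * Real.sqrt Real.pi * ((Real.sqrt Real.pi + 3 * t) * N) ≤
      2 * Real.pi * (1 + 3 * t) * N := by
    have hss : Real.sqrt Real.pi * Real.sqrt Real.pi = Real.pi :=
      Real.mul_self_sqrt Real.pi_pos.le
    have hsp : Real.sqrt Real.pi ≤ Real.pi := by nlinarith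
    have h3 := mul_le_mul_of_nonneg_right hsp (show 0 ≤ 3 * t by linarith)
    have h4 : Real.sqrt Real.pi * (Real.sqrt Real.pi + 3 * t) ≤ Real.pi * (1 + 3 * t) := by
      linarith
    have h5 := mul_le_mul_of_nonneg_right h4 hN0
    linarith
  have k7 : q * ((1 - t) ^ 2 * W) ≤ (1 + t) * (q * ((1 - t) * V)) := by
    have h1t : 0 ≤ 1 - t := by linarith
    have := mul_le_mul_of_nonneg_left e3 (mul_nonneg hq.le h1t)
    linarith
  have k8 : (q - ε) * ((1 + t) ^ 2 * (1 + 3 * t)) * W ≤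
      (1 + t) * (2 * Real.pi * (1 + 3 * t) * N) := by
    calc (q - ε) * ((1 + t) ^ 2 * (1 + 3 * t)) * W ≤
        q * (1 - t) ^ 2 * W := mul_le_mul_of_nonneg_right k4 hW0.le
      _ = q * ((1 - t) ^ 2 * W) := by ring
      _ ≤ (1 + t) * (q * ((1 - t) * V)) := k7
      _ ≤ _ := mul_le_mul_of_nonneg_left (k5.trans k6) (by linarith)
  have k9 : (q - ε) * (1 + t) * W ≤ 2 * Real.pi * N := by
    have hp : 0 < (1 + t) * (1 + 3 * t) := by positivity
    have : (1 + t) * (1 + 3 * t) * ((q - ε) * (1 + t) * W) ≤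
        (1 + t) * (1 + 3 * t) * (2 * Real.pi * N) := by
      linarith [k8]
    exact le_of_mul_le_mul_left this hp
  have h11 := mul_le_mul_of_nonneg_left e1 ha.le
  have h12 : (q - ε) * ((1 + t) * (W / (2 * Real.pi))) =
      ((q - ε) * (1 + t) * W) / (2 * Real.pi) := by ring
  rw [h12] at h11
  refine h11.trans ?_
  rw [div_le_iff₀ (by positivity)]
  linarith

/-- the logarithmic factor of the upper bound -/
lemma logfac {S T k : ℝ} (hS : 3 ≤ S) (hT : 3 ≤ T) (h : S ≤ 2 * T) (hk : 0 < k) (hk1 : k ≤ 1) :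
    Real.log S ^ ((1 - k) ^ 2) ≤ 2 * Real.log T ^ ((1 - k) ^ 2) := by
  have hL : 0 < Real.log S := Real.log_pos (by linarith)
  have hLT : 0 < Real.log T := Real.log_pos (by linarith)
  have hl2 : Real.log S ≤ 2 * Real.log T := by
    have h1 : Real.log S ≤ Real.log (2 * T) := Real.log_le_log (by linarith) h
    rw [Real.log_mul (by norm_num) (by linarith)] at h1
    have h2T : Real.log 2 ≤ Real.log T := Real.log_le_log (by norm_num) (by linarith)
    linarith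
  have hexp : (0 : ℝ) ≤ (1 - k) ^ 2 := sq_nonneg _
  have hexp1 : (1 - k) ^ 2 ≤ 1 := by
    have h1 : 0 ≤ 1 - k := by linarith
    have h2 : 1 - k ≤ 1 := by linarith
    calc (1 - k) ^ 2 ≤ 1 ^ 2 := pow_le_pow_left₀ h1 h2 2
      _ = 1 := one_pow 2
  calc Real.log S ^ ((1 - k) ^ 2) ≤ (2 * Real.log T) ^ ((1 - k) ^ 2) :=
        Real.rpow_le_rpow hL.le hl2 hexp
    _ = (2 : ℝ) ^ ((1 - k) ^ 2) * Real.log T ^ ((1 - k) ^ 2) :=
        Real.mul_rpow (by norm_num) hLT.le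
    _ ≤ 2 * Real.log T ^ ((1 - k) ^ 2) := by
        apply mul_le_mul_of_nonneg_right _ (Real.rpow_nonneg hLT.le _)
        calc (2 : ℝ) ^ ((1 - k) ^ 2) ≤ (2 : ℝ) ^ (1 : ℝ) :=
              Real.rpow_le_rpow_of_exponent_le (by norm_num) hexp1
          _ = 2 := Real.rpow_one 2

/-- module FIC -/
theorem fic (h1 : MofStatement) (h3 : GrdStatement) (h4 : NasStatement)
    (h5 : ZfacStatement) (h6 : DhzStatement) : FicStatement := by
  classical
  obtain ⟨z1, z2, z3, z4, z5, z6, z7⟩ := h5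
  intro th c1 c2 q A η ε H hth0 hth hq0 hA hη hη1 hε hHev X1
  obtain ⟨C, TM, hC, hTM, hM⟩ := h1 th c1 c2 hth0 hth
  set t : ℝ := min (1 / 64) (ε / (8 * q)) with ht
  have ht0 : 0 < t := lt_min (by norm_num) (by positivity)
  have ht1 : t ≤ 1 / 64 := min_le_left _ _
  have ht2 : 8 * q * t ≤ ε := by
    have h8 : t ≤ ε / (8 * q) := min_le_right _ _
    rw [le_div_iff₀ (by positivity)] at h8
    linarith
  obtain ⟨X0, hX0, hg⟩ := h3 t A ht0 (by linarith) hA
  obtain ⟨XG, hXG⟩ := hHev.exists_forall_of_atTop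
  obtain ⟨XD, hXD⟩ := (dd_small A t ht0).exists_forall_of_atTop
  set X : ℝ := max (max X0 (max TM X1)) (max XG XD) with hX
  have hX0' : X0 ≤ X := (le_max_left _ _).trans (le_max_left _ _)
  have hXM : TM ≤ X := ((le_max_left _ _).trans (le_max_right _ _)).trans (le_max_left _ _)
  have hXX1 : X1 ≤ X := ((le_max_right _ _).trans (le_max_right _ _)).trans (le_max_left _ _)
  have hXG' : XG ≤ X := (le_max_left _ _).trans (le_max_right _ _)
  have hXD' : XD ≤ X := (le_max_right _ _).trans (le_max_right _ _)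
  have hX3 : 3 ≤ X := hX0.trans hX0'
  obtain ⟨g1, g2, g3, g4, g5⟩ := hg X hX0'
  have hD : ∀ T, X ≤ T → A * DD T ≤ t * T := fun T hT => hXD T (hXD'.trans hT)
  have hH : ∀ T, X ≤ T → H T ⊆ Gset th c1 c2 A η T := fun T hT => (hXG T (hXG'.trans hT)).1
  have hgt : ∀ i γ, γ ∈ H (grd X t i) → 0 < γ ∧
      riemannZeta (1 / 2 + γ * I) = 0 ∧ γ ≤ (1 + t) * grd X t i ∧
      deriv hardyZ γ ≠ 0 := by
    intro i γ hγ
    obtain ⟨q1, q2, q3⟩ := hH _ (g1 i) hγ
    have hgi := g1 i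
    have hL : 0 < Real.log (grd X t i) := Real.log_pos (by linarith)
    refine ⟨by linarith [q1.1], q1.2.2, ?_, ?_⟩
    · have q4 := (abs_le.1 q2).2
      have q5 := hD _ hgi
      linarith
    · intro h0
      have q6 := h6 γ ((z1 γ).2 q1.2.2)
      rw [h0, abs_zero] at q6
      unfold vv at q3
      rw [norm_mul, ← q6, zero_mul] at q3
      have := mul_pos hη hL
      linarith
  set G : Set ℝ := {γ | ∃ i, γ ∈ H (grd X t i)} with hGdef
  have hZfin : ∀ T : ℝ, {γ : ℝ | γ ∈ G ∧ γ ≤ T}.Finite := by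
    intro T
    apply (z6 T).subset
    rintro γ ⟨⟨i, hi⟩, hT⟩
    obtain ⟨w1, w2, -, -⟩ := hgt i γ hi
    exact ⟨w1, hT, w2⟩
  have hNZ : ∀ T, NZ T = Nb (fun γ => (mz γ : ℝ)) T := by
    intro T
    unfold NZ Nb
    have hZ2 : {γ : ℝ | 0 < γ ∧ γ ≤ T ∧ hardyZ γ = 0} =
        {γ : ℝ | 0 < γ ∧ γ ≤ T ∧ riemannZeta (1 / 2 + γ * I) = 0} := by
      ext γ
      simp only [Set.mem_ofPred_eq, z1]
    rw [hZ2]
    apply finsum_mem_congr rfl
    intro γ hγ
    rw [z2 γ hγ.2.2]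
  -- eventual statements
  have ev1 : ∀ᶠ T : ℝ in atTop, NZ T ≤ (1 + t) * (T * Real.log T / (2 * Real.pi)) := by
    have := h4.eventually_le_const (show (1 : ℝ) < 1 + t by linarith)
    filter_upwards [this, eventually_gt_atTop 1] with T hT hT1
    have hL := Real.log_pos hT1
    have hp : 0 < T * Real.log T / (2 * Real.pi) := by
      have := Real.pi_pos
      positivity
    rw [div_le_iff₀ hp] at hT
    rw [hNZ]; exact hT
  have ev2 : ∀ᶠ T : ℝ in atTop, (1 - t) * (T / (1 + t) * Real.log (T / (1 + t))) ≤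
      ∑ᶠ i ∈ {i : ℕ | grd X t i ≤ T / (1 + t)}, t * DD (grd X t i) * Real.log (grd X t i) := by
    have hc : Tendsto (fun T : ℝ => T / (1 + t)) atTop atTop :=
      tendsto_id.atTop_div_const (by linarith)
    exact hc.eventually (g4 t ht0)
  obtain ⟨T1, hT1⟩ := (ev1.and (ev2.and (ylogy t ht0))).exists_forall_of_atTop
  refine ⟨G, ?_, 4 * (η ^ 2)⁻¹ * Real.exp (A ^ 2) * C / t, max T1 X, by positivity, ?_⟩
  · rintro γ ⟨i, hi⟩
    obtain ⟨w1, w2, -, w4⟩ := hgt i γ hi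
    exact ⟨w1, (z1 γ).2 w2, w4, grd X t i, hXX1.trans (g1 i), hi⟩
  intro T hT
  have hTX : X ≤ T := (le_max_right _ _).trans hT
  obtain ⟨e1, e2, e3⟩ := hT1 T ((le_max_left _ _).trans hT)
  have hT3 : 3 ≤ T := hX3.trans hTX
  have hLT : 0 < Real.log T := Real.log_pos (by linarith)
  have hpi : 0 < Real.sqrt Real.pi := Real.sqrt_pos.2 Real.pi_pos
  have hpi1 : 1 ≤ Real.sqrt Real.pi := by
    rw [Real.one_le_sqrt]; linarith [Real.pi_gt_three]
  constructor
  · -- the number of good zeros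
    have k1 := lower_count (Y := T / (1 + t)) (κ := t) hH z7 ht0 (by linarith) hX3 g1 g2
      g3 hD {γ : ℝ | γ ∈ G ∧ γ ≤ T} (hZfin T) (by
        intro i hi γ hγ
        obtain ⟨-, -, w3, -⟩ := hgt i γ hγ
        refine ⟨⟨i, hγ⟩, w3.trans ?_⟩
        rw [le_div_iff₀ (by linarith)] at hi
        linarith)
    set N : ℝ := ({γ : ℝ | γ ∈ G ∧ γ ≤ T}.ncard : ℝ) with hN
    have hN0 : 0 ≤ N := Nat.cast_nonneg _
    rw [finsum_mem_eq_finite_toFinset_sum _ (g2 _)] at e2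
    have k2 : q / (2 * Real.sqrt Real.pi) *
        ∑ i ∈ (g2 (T / (1 + t))).toFinset, t * DD (grd X t i) * Real.log (grd X t i) ≤
        ∑ i ∈ (g2 (T / (1 + t))).toFinset,
          t * ∑ᶠ γ ∈ H (grd X t i), wt (grd X t i) γ := by
      rw [Finset.mul_sum]
      apply Finset.sum_le_sum
      intro i _
      have w2 := (hXG (grd X t i) (hXG'.trans (g1 i))).2
      have w3 := mul_le_mul_of_nonneg_left w2 ht0.le
      refine le_trans (le_of_eq ?_) w3
      unfold cG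
      ring
    have k3 : q / (2 * Real.sqrt Real.pi) *
        ((1 - t) * (T / (1 + t) * Real.log (T / (1 + t)))) ≤ (Real.sqrt Real.pi + 3 * t) * N :=
      (mul_le_mul_of_nonneg_left e2 (by positivity)).trans (k2.trans k1)
    by_cases ha : 0 < q - ε
    · exact endgame hq0 ht0 ht1 ht2 ha (by positivity) hN0 e3 k3 e1
    · have : (q - ε) * NZ T ≤ 0 :=
        mul_nonpos_of_nonpos_of_nonneg (by linarith) (NZ_nonneg T)
      linarith
  · -- the moments
    intro k hk hk1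
    have u1 := upper_sum (κ := t) (T := T) hH z7 (by linarith) hX3 g1 g2 hD
      (fun γ => |deriv hardyZ γ| ^ (-(2 * k)))
      (fun γ => Real.rpow_nonneg (abs_nonneg _) _) (hZfin T)
    refine u1.trans ?_
    set K : ℝ := (η ^ 2)⁻¹ * Real.exp (A ^ 2) with hK
    have hK0 : 0 < K := by positivity
    have u2 : ∀ i ∈ (g2 (2 * T)).toFinset,
        ∑ᶠ γ ∈ H (grd X t i), |deriv hardyZ γ| ^ (-(2 * k)) ≤
        (K * (C / k) * (2 * Real.log T ^ ((1 - k) ^ 2)) / (2 * t)) * (t * DD (grd X t i)) := by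
      intro i hi
      have hi' : grd X t i ≤ 2 * T := by simpa using hi
      have hgi := g1 i
      have hL : 0 < Real.log (grd X t i) := Real.log_pos (by linarith)
      have hDp : 0 < DD (grd X t i) := DD_pos (by linarith)
      have w1 := window (C := C) (k := k) (hH _ hgi) z7 z3 (fun γ hγ => (z1 γ).2 hγ) h6
        (by linarith) hη hη1 hk hk1 (hM _ (hXM.trans hgi) k hk hk1)
      refine w1.trans ?_
      have w2 := logfac (by linarith) hT3 hi' hk hk1
      have w3 : cG (grd X t i) ≤ DD (grd X t i) / 2 := by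
        unfold cG
        apply div_le_div_of_nonneg_left hDp.le (by norm_num)
        linarith
      have hcG : 0 ≤ cG (grd X t i) := by unfold cG; positivity
      have hKC : 0 ≤ K * (C / k) := by positivity
      have hl0 : 0 ≤ Real.log (grd X t i) ^ ((1 - k) ^ 2) := Real.rpow_nonneg hL.le _
      calc K * (C / k) * cG (grd X t i) * Real.log (grd X t i) ^ ((1 - k) ^ 2)
          ≤ K * (C / k) * (DD (grd X t i) / 2) * (2 * Real.log T ^ ((1 - k) ^ 2)) := by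
            apply mul_le_mul (mul_le_mul_of_nonneg_left w3 hKC) w2 hl0 (by positivity)
        _ = _ := by field_simp
    refine (Finset.sum_le_sum u2).trans ?_
    rw [← Finset.mul_sum]
    have u3 := g5 (2 * T) (by linarith)
    rw [finsum_mem_eq_finite_toFinset_sum _ (g2 _)] at u3
    have hl0 : 0 ≤ Real.log T ^ ((1 - k) ^ 2) := Real.rpow_nonneg hLT.le _
    refine (mul_le_mul_of_nonneg_left u3 (by positivity)).trans (le_of_eq ?_)
    rw [hK]
    field_simp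
    ring

/-- module FIN -/
theorem fin (h1 : MofStatement) (h2 : GlbStatement) (h3 : GrdStatement) (h4 : NasStatement)
    (h5 : ZfacStatement) (h6 : DhzStatement) (h7 : NmqStatement) : QzStatement := by
  intro ε hε
  set e : ℝ := min ε 1 with he
  have he0 : 0 < e := lt_min hε one_pos
  have he1 : e ≤ 1 := min_le_right _ _
  have hee : e ≤ ε := min_le_left _ _
  obtain ⟨th, c1, c2, hth0, hth, hm1, hm2, hq⟩ := h7 (e / 4) (by positivity)
  obtain ⟨A, η, hA, hη, hη1, hG⟩ := h2 th c1 c2 (e / 4) hth0 hth hm1 (by positivity)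
  have hev : ∀ᶠ T : ℝ in atTop, Gset th c1 c2 A η T ⊆ Gset th c1 c2 A η T ∧
      (19 / 27 - e / 2) * (cG T * Real.log T) ≤ ∑ᶠ γ ∈ Gset th c1 c2 A η T, wt T γ := by
    filter_upwards [hG, eventually_gt_atTop 1] with T hT hT1
    refine ⟨subset_rfl, le_trans ?_ hT⟩
    have hL : 0 < Real.log T := Real.log_pos hT1
    have hDp : 0 < DD T := DD_pos hT1
    have hpi : 0 < Real.sqrt Real.pi := Real.sqrt_pos.2 Real.pi_pos
    have hcG : 0 < cG T := by unfold cG; positivity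
    apply mul_le_mul_of_nonneg_right _ (by positivity)
    linarith
  obtain ⟨G, hG1, C, T0, hC, hT0⟩ := fic h1 h3 h4 h5 h6 th c1 c2 (19 / 27 - e / 2) A η (e / 2)
    (Gset th c1 c2 A η) hth0 hth (by linarith) hA hη hη1 (by positivity) hev 0
  refine ⟨G, fun γ hγ => ⟨(hG1 γ hγ).1, (hG1 γ hγ).2.1, (hG1 γ hγ).2.2.1⟩, C, T0, hC, ?_⟩
  intro T hT
  refine ⟨le_trans ?_ (hT0 T hT).1, (hT0 T hT).2⟩
  exact mul_le_mul_of_nonneg_right (by linarith) (NZ_nonneg T)

end Pool.Agent.Lib.MP_6bc78b_nt.MS.QZ.H6
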